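import Pool.Agent.Helper99.EXC.GoalsE

/-!
# Packet DTA: the mean change of the charge of scale `k`
-/

open Finset

namespace Pool.Agent.Helper13.EXC

open Pool.Agent.Helper99.ERW Pool.Agent.Helper99.EXC

/-- Jensen for the operator `Ex`. -/
lemma Ex_sq_le {p : Site 2 → ℕ → ℝ} (hp0 : ∀ z i, 0 ≤ p z i) (hp1 : ∀ z i, p z i ≤ 1)
    (Λ : Finset (Site 2)) (N : ℕ) (f : St → ℝ) (c : ℝ) (s0 : St) :
    (Ex p Λ N f s0 - c) ^ 2 ≤ Ex p Λ N (fun s => (f s - c) ^ 2) s0 := by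
  have key : ∀ D : ℝ, Ex p Λ N (fun s => (f s - c - D) ^ 2) s0 =
      Ex p Λ N (fun s => (f s - c) ^ 2) s0 - (2 * D) * Ex p Λ N f s0 + (2 * D * c + D ^ 2) := by
    intro D
    have h1 : (fun s : St => (f s - c - D) ^ 2) =
        fun s : St => ((f s - c) ^ 2 - (2 * D) * f s) + (2 * D * c + D ^ 2) := by
      funext s; ring
    rw [h1, Ex_add p Λ N (fun s => (f s - c) ^ 2 - (2 * D) * f s)
      (fun _ => 2 * D * c + D ^ 2), Ex_sub p Λ N (fun s => (f s - c) ^ 2)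
      (fun s => (2 * D) * f s), Ex_smul p Λ N (2 * D) f, Ex_const p Λ N (2 * D * c + D ^ 2)]
  have h0 : 0 ≤ Ex p Λ N (fun s => (f s - c - (Ex p Λ N f s0 - c)) ^ 2) s0 :=
    Ex_nonneg hp0 hp1 Λ N (fun s => sq_nonneg _) s0
  rw [key] at h0
  linarith [h0, sq_nonneg (Ex p Λ N f s0 - c)]

lemma arith1 {κ k C0 A q c0 γ S α E U x y z X : ℝ} (hκ : 0 < κ) (hk : 1 ≤ k) (hC0 : 0 ≤ C0)
    (hA : 0 ≤ A) (hq : 0 ≤ q) (hS : 0 ≤ S) (hE : 0 ≤ E)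
    (hU : U = (A + q + γ ^ 2 * S) / k)
    (hx2 : x ^ 2 = U) (hy2 : y ^ 2 = c0 ^ 2 * (S / k)) (hz2 : z ^ 2 = α ^ 2 * E)
    (hm : κ * k * X ≤ C0 * A + C0 * q + C0 * (c0 - γ) ^ 2 * S + C0 * (k + 1) * α ^ 2 * E) :
    X ≤ (2 * C0 / κ) * (x ^ 2 + y ^ 2 + z ^ 2) := by
  have hk' : (0 : ℝ) < k := by linarith
  have hκk : 0 < κ * k := by positivity
  rw [← mul_le_mul_iff_right₀ hκk]
  refine hm.trans ?_
  have e1 : κ * k * (2 * C0 / κ * (x ^ 2 + y ^ 2 + z ^ 2)) =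
      2 * C0 * (A + q + γ ^ 2 * S) + 2 * C0 * (c0 ^ 2 * S) + 2 * C0 * k * (α ^ 2 * E) := by
    rw [hx2, hy2, hz2, hU]
    field_simp
  rw [e1]
  have e2 : (c0 - γ) ^ 2 ≤ 2 * c0 ^ 2 + 2 * γ ^ 2 := by nlinarith [sq_nonneg (c0 + γ)]
  have e3 : C0 * (c0 - γ) ^ 2 * S ≤ C0 * (2 * c0 ^ 2 + 2 * γ ^ 2) * S :=
    mul_le_mul_of_nonneg_right (mul_le_mul_of_nonneg_left e2 hC0) hS
  have e4 : C0 * (k + 1) * α ^ 2 * E ≤ C0 * (2 * k) * α ^ 2 * E := by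
    apply mul_le_mul_of_nonneg_right _ hE
    apply mul_le_mul_of_nonneg_right _ (sq_nonneg _)
    apply mul_le_mul_of_nonneg_left _ hC0
    linarith
  have e5 : 0 ≤ C0 * A := by positivity
  have e6 : 0 ≤ C0 * q := by positivity
  have e7 : 2 * C0 * (A + q + γ ^ 2 * S) + 2 * C0 * (c0 ^ 2 * S) + 2 * C0 * k * (α ^ 2 * E) =
      C0 * A + C0 * A + C0 * q + C0 * q + C0 * (2 * c0 ^ 2 + 2 * γ ^ 2) * S +
        C0 * (2 * k) * α ^ 2 * E := by ring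
  rw [e7]
  linarith

lemma arith2 {G x y z D X : ℝ} (hG : 0 ≤ G) (hx0 : 0 ≤ x) (hy0 : 0 ≤ y) (hz0 : 0 ≤ z)
    (hj : D ^ 2 ≤ X) (key : X ≤ G * (x ^ 2 + y ^ 2 + z ^ 2)) :
    |D| ≤ Real.sqrt G * (x + y + z) := by
  have h1 : x ^ 2 + y ^ 2 + z ^ 2 ≤ (x + y + z) ^ 2 := by
    nlinarith [mul_nonneg hx0 hy0, mul_nonneg hx0 hz0, mul_nonneg hy0 hz0]
  have h2 : D ^ 2 ≤ (Real.sqrt G * (x + y + z)) ^ 2 := by
    rw [mul_pow, Real.sq_sqrt hG]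
    exact (hj.trans key).trans (mul_le_mul_of_nonneg_left h1 hG)
  exact abs_le_of_sq_le_sq h2 (by positivity)

/-- **Packet DTA.** -/
theorem DTA (hSQB : SQB_stmt) : DTA_stmt := by
  intro κ C b
  obtain ⟨C0, hC0, h⟩ := hSQB κ C b
  by_cases hkC : 0 < κ
  swap
  · exact ⟨0, le_rfl, fun a p V Tl Si φ Φ k1 hc hs => absurd hs.kpos hkC⟩
  refine ⟨Real.sqrt (2 * C0 / κ), Real.sqrt_nonneg _, ?_⟩
  intro a p V Tl Si φ Φ k1 hc hs k s hk1 hk0 hks J N s0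
  have hmain := h a p V Tl Si φ Φ k1 hc hs k s hk1 hk0 hks J N s0
  have hj := Ex_sq_le hc.p0 hc.p1 (Bx b (s + 1)) N (fun s => cL a p Φ b k s.2)
    (cL a p Φ b k s0.2) s0
  have hV : ∀ z, 0 ≤ V z := fun z => by
    have := hc.tv z 0
    simpa [Vm] using this
  have h4 : (0 : ℝ) < 4 ^ k := by positivity
  have haa : 0 ≤ aa V b k := div_nonneg (Finset.sum_nonneg (fun z _ => hV z)) h4.le
  have hbb : 0 ≤ bb V b k := div_nonneg (Finset.sum_nonneg (fun z _ => sq_nonneg _)) h4.le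
  have hww : 0 ≤ ww V b s := Finset.sum_nonneg (fun z _ => div_nonneg (hV z) (sq_nonneg _))
  have hee : 0 ≤ ee Tl b J k := div_nonneg (Finset.sum_nonneg (fun z _ => hc.tl0 z J)) h4.le
  have hqq : 0 ≤ qq V b k s :=
    add_nonneg (add_nonneg zero_le_one hbb) (sq_nonneg _)
  have hE : 0 ≤ Ex p (Bx b (s + 1)) N (one (Bx b (s + 1))) s0 :=
    Ex_nonneg hc.p0 hc.p1 _ N (fun s => by unfold one; split_ifs <;> norm_num) s0
  have hk : (1 : ℝ) ≤ k := by exact_mod_cast hk0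
  have hk' : (0 : ℝ) < k := by linarith
  have hS0 : 0 ≤ (s : ℝ) + 1 + ww V b s := by positivity
  have hJ : (0 : ℝ) ≤ 1 + J := by positivity
  have hA : 0 ≤ ((1 + J) * qq V b k s + ee Tl b J k * (s + 1 + ww V b s)) * aa V b k :=
    mul_nonneg (add_nonneg (mul_nonneg hJ hqq) (mul_nonneg hee hS0)) haa
  have hU0 : 0 ≤ ((((1 + J) * qq V b k s + ee Tl b J k * (s + 1 + ww V b s)) * aa V b k +
      qq V b k s + ci Φ Si b k ^ 2 * (s + 1 + ww V b s)) / k) :=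
    div_nonneg (add_nonneg (add_nonneg hA hqq) (mul_nonneg (sq_nonneg _) hS0)) hk'.le
  have hSk : 0 ≤ ((s : ℝ) + 1 + ww V b s) / k := div_nonneg hS0 hk'.le
  have key := arith1 (κ := κ) (k := (k : ℝ)) (C0 := C0)
    (A := ((1 + J) * qq V b k s + ee Tl b J k * (s + 1 + ww V b s)) * aa V b k)
    (q := qq V b k s) (c0 := cL a p Φ b k s0.2) (γ := ci Φ Si b k)
    (S := (s : ℝ) + 1 + ww V b s) (α := aa V b k)
    (E := Ex p (Bx b (s + 1)) N (one (Bx b (s + 1))) s0)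
    (x := uu V Tl Si Φ b J k s)
    (y := |cL a p Φ b k s0.2| * Real.sqrt ((s + 1 + ww V b s) / k))
    (z := aa V b k * Real.sqrt (Ex p (Bx b (s + 1)) N (one (Bx b (s + 1))) s0))
    hkC hk hC0 hA hqq hS0 hE rfl (Real.sq_sqrt hU0)
    (by rw [mul_pow, sq_abs, Real.sq_sqrt hSk]) (by rw [mul_pow, Real.sq_sqrt hE])
    (by rw [← mul_assoc C0]; exact hmain)
  have hG : 0 ≤ 2 * C0 / κ := by positivity
  have hu0 : 0 ≤ uu V Tl Si Φ b J k s := Real.sqrt_nonneg _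
  have := arith2 hG hu0 (mul_nonneg (abs_nonneg _) (Real.sqrt_nonneg _))
    (mul_nonneg haa (Real.sqrt_nonneg _)) hj key
  calc _ ≤ _ := this
    _ = _ := by ring

end Pool.Agent.Helper13.EXC
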