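import Pool.Agent.Helper99.EXC.GoalsD

/-!
# Packet SQB: the second moment of the change of the charge of scale `k`
-/

open Finset

namespace Pool.Agent.Helper13.EXC

open Pool.Agent.Helper99.ERW Pool.Agent.Helper99.EXC

lemma V_nonneg {a : ℝ} {p : Site 2 → ℕ → ℝ} {V : Site 2 → ℝ} {Tl : Site 2 → ℕ → ℝ}
    {Si : Site 2 → ℝ} (h : Cook a p V Tl Si) (z : Site 2) : 0 ≤ V z := by
  have := h.tv z 0
  simpa [Vm] using this

lemma Vm_nonneg (a : ℝ) (p : Site 2 → ℕ → ℝ) (z : Site 2) (j : ℕ) : 0 ≤ Vm a p z j :=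
  Finset.sum_nonneg (fun _ _ => abs_nonneg _)

lemma dS_abs {a : ℝ} {p : Site 2 → ℕ → ℝ} {V : Site 2 → ℝ} {Tl : Site 2 → ℕ → ℝ}
    {Si : Site 2 → ℝ} (h : Cook a p V Tl Si) (s : St) : |dS a p s| ≤ 1 := by
  have h1 := h.a0
  have h2 := h.a1
  have h3 := h.p0 s.1 (s.2 s.1)
  have h4 := h.p1 s.1 (s.2 s.1)
  unfold dS
  rw [abs_le]
  constructor <;> linarith

lemma Bx_mono {b k l : ℕ} (h : k ≤ l) : Bx b k ⊆ Bx b l := by
  intro x hx
  unfold Bx at *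
  rw [mem_box] at *
  intro i
  refine (hx i).trans ?_
  exact_mod_cast Nat.mul_le_mul_left b (Nat.pow_le_pow_right (by norm_num) h)

lemma card_box (n : ℕ) : (Pool.Agent.Helper99.ERW.box 2 n).card = (2 * n + 1) ^ 2 := by
  unfold Pool.Agent.Helper99.ERW.box
  rw [Fintype.card_piFinset]
  simp only [Int.card_Icc, Finset.prod_const, Finset.card_univ, Fintype.card_fin]
  congr 1
  omega

lemma card_Bx (b k : ℕ) : ((Bx b (k + 1)).card : ℝ) ≤ (4 * b + 1) ^ 2 * 4 ^ k := by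
  unfold Bx
  rw [card_box]
  push_cast
  have h1 : (1 : ℝ) ≤ 2 ^ k := one_le_pow₀ (by norm_num)
  have h2 : (2 * ((b : ℝ) * 2 ^ (k + 1)) + 1) ≤ (4 * b + 1) * 2 ^ k := by
    rw [pow_succ]; nlinarith
  have h3 : (0 : ℝ) ≤ 2 * ((b : ℝ) * 2 ^ (k + 1)) + 1 := by positivity
  calc (2 * ((b : ℝ) * 2 ^ (k + 1)) + 1) ^ 2 ≤ ((4 * b + 1) * 2 ^ k) ^ 2 :=
        pow_le_pow_left₀ h3 h2 2
    _ = (4 * b + 1) ^ 2 * 4 ^ k := by
        rw [mul_pow, ← pow_mul, mul_comm k 2, pow_mul]; norm_num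

lemma aa_sq_le (V : Site 2 → ℝ) (b k : ℕ) : aa V b k ^ 2 ≤ (4 * b + 1) ^ 2 * bb V b k := by
  unfold aa bb
  have h1 := sq_sum_le_card_mul_sum_sq (s := Bx b (k + 1)) (f := V)
  have h2 := card_Bx b k
  have h3 : (0 : ℝ) ≤ ∑ z ∈ Bx b (k + 1), V z ^ 2 := Finset.sum_nonneg (fun _ _ => sq_nonneg _)
  have h4 : (0 : ℝ) < 4 ^ k := by positivity
  rw [div_pow, mul_div_assoc', div_le_div_iff₀ (by positivity) h4]
  calc (∑ z ∈ Bx b (k + 1), V z) ^ 2 * 4 ^ k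
      ≤ ((Bx b (k + 1)).card * ∑ z ∈ Bx b (k + 1), V z ^ 2) * 4 ^ k :=
        mul_le_mul_of_nonneg_right h1 h4.le
    _ ≤ (((4 * b + 1) ^ 2 * 4 ^ k) * ∑ z ∈ Bx b (k + 1), V z ^ 2) * 4 ^ k :=
        mul_le_mul_of_nonneg_right (mul_le_mul_of_nonneg_right h2 h3) h4.le
    _ = _ := by ring

lemma sum_upd (B : Finset (Site 2)) (w : Site 2 → ℝ) (G : Site 2 → ℕ → ℝ) (s : St)
    (hw : s.1 ∉ B → w s.1 = 0) (δ : ℝ) (hδ : G s.1 (s.2 s.1 + 1) = G s.1 (s.2 s.1) + δ) :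
    ∑ z ∈ B, w z * G z (inc s z) = ∑ z ∈ B, w z * G z (s.2 z) + w s.1 * δ := by
  by_cases h : s.1 ∈ B
  · rw [← Finset.add_sum_erase B _ h, ← Finset.add_sum_erase B (fun z => w z * G z (s.2 z)) h]
    have h1 : ∑ z ∈ B.erase s.1, w z * G z (inc s z) = ∑ z ∈ B.erase s.1, w z * G z (s.2 z) := by
      apply Finset.sum_congr rfl
      intro z hz
      rw [inc_of_ne s (Finset.ne_of_mem_erase hz)]
    rw [h1, inc_self, hδ]
    ring
  · rw [hw h, zero_mul, add_zero]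
    apply Finset.sum_congr rfl
    intro z hz
    have : z ≠ s.1 := by rintro rfl; exact h hz
    rw [inc_of_ne s this]

lemma cL_inc (a : ℝ) (p : Site 2 → ℕ → ℝ) (Φ : ℕ → Site 2 → ℝ) (b k : ℕ)
    (h : ∀ x, x ∉ Bx b k → hk Φ k x = 0) (s : St) :
    cL a p Φ b k (inc s) = cL a p Φ b k s.2 + hk Φ k s.1 * dS a p s := by
  unfold cL
  exact sum_upd (Bx b k) (hk Φ k) (Sm a p) s (h s.1) (dS a p s) (by rw [Sm_succ]; rfl)

lemma le_one_add_sq (α : ℝ) : α ≤ 1 + α ^ 2 := by nlinarith [sq_nonneg (α - 1 / 2)]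

lemma final_arith {κ C C1 Q q e w α E Y T J k s A B ap ee4 L : ℝ} (hκ : 0 < κ) (hC : 1 ≤ C)
    (hC1 : 0 ≤ C1) (hQ : 0 ≤ Q) (hq : 1 ≤ q) (he : 0 ≤ e) (hw : 0 ≤ w) (hα : 0 ≤ α) (hE : 0 ≤ E)
    (hT : 0 ≤ T) (hJ : 0 ≤ J) (hk : 0 ≤ k) (hks : k ≤ s)
    (hY : Y ≤ κ * (s - k) + C + C * w)
    (hA : A = C1 * ((1 + J) * q + e * (κ * (s - k) + C + C * w)))
    (hB : B = C1 * (k + 1) * α) (hap0 : 0 ≤ ap) (hap : ap ≤ C * α)
    (_h4 : 0 ≤ ee4) (h41 : ee4 ≤ 1) (h4k : k * ee4 ≤ 1)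
    (hα2 : α ^ 2 ≤ Q * q)
    (hL : L ≤ 2 * A * ap + 2 * B * ap * E + T / 2 * Y + 2 * (C * ee4) * ap ^ 2 +
      κ * k * (C * ee4) * ap) :
    L ≤ (2 * C * C1 * (1 + κ + C) + (κ + C) + (2 * C ^ 3 * Q + κ * C ^ 2 * (1 + Q)) + 2 * C * C1) *
        ((1 + J) * q + e * (s + 1 + w)) * α +
      (2 * C * C1 * (1 + κ + C) + (κ + C) + (2 * C ^ 3 * Q + κ * C ^ 2 * (1 + Q)) + 2 * C * C1) * q +
      (2 * C * C1 * (1 + κ + C) + (κ + C) + (2 * C ^ 3 * Q + κ * C ^ 2 * (1 + Q)) + 2 * C * C1) *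
        T * (s + 1 + w) +
      (2 * C * C1 * (1 + κ + C) + (κ + C) + (2 * C ^ 3 * Q + κ * C ^ 2 * (1 + Q)) + 2 * C * C1) *
        (k + 1) * α ^ 2 * E := by
  have hC0 : 0 ≤ C := by linarith
  have hs : 0 ≤ s := by linarith
  have hX : κ * (s - k) + C + C * w ≤ (κ + C) * (s + 1 + w) := by
    have e1 : (κ + C) * (s + 1 + w) = κ * (s - k) + C + C * w + (κ * k + κ + κ * w + C * s) := by
      ring
    have e2 : 0 ≤ κ * k + κ + κ * w + C * s := add_nonneg (add_nonneg (add_nonneg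
      (mul_nonneg hκ.le hk) hκ.le) (mul_nonneg hκ.le hw)) (mul_nonneg hC0 hs)
    rw [e1]; linarith
  have hX0 : 0 ≤ κ * (s - k) + C + C * w :=
    add_nonneg (add_nonneg (mul_nonneg hκ.le (sub_nonneg.2 hks)) hC0) (mul_nonneg hC0 hw)
  have hA0 : 0 ≤ A := by
    rw [hA]
    exact mul_nonneg hC1 (add_nonneg (mul_nonneg (by linarith) (by linarith))
      (mul_nonneg he hX0))
  have hB0 : 0 ≤ B := by rw [hB]; positivity
  -- the four terms
  have hA1 : A ≤ C1 * ((1 + κ + C) * ((1 + J) * q + e * (s + 1 + w))) := by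
    rw [hA]
    apply mul_le_mul_of_nonneg_left _ hC1
    have h1 : e * (κ * (s - k) + C + C * w) ≤ e * ((κ + C) * (s + 1 + w)) :=
      mul_le_mul_of_nonneg_left hX he
    have h2 : 0 ≤ (κ + C) * ((1 + J) * q) := mul_nonneg (by linarith)
      (mul_nonneg (by linarith) (by linarith))
    have h3 : 0 ≤ e * (s + 1 + w) := mul_nonneg he (by linarith)
    have h5 : (1 + κ + C) * ((1 + J) * q + e * (s + 1 + w)) = (1 + J) * q +
      e * ((κ + C) * (s + 1 + w)) + ((κ + C) * ((1 + J) * q) + e * (s + 1 + w)) := by ring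
    rw [h5]; linarith
  have t1 : 2 * A * ap ≤ (2 * C * C1 * (1 + κ + C)) * (((1 + J) * q + e * (s + 1 + w)) * α) := by
    calc 2 * A * ap ≤ 2 * A * (C * α) := mul_le_mul_of_nonneg_left hap (by positivity)
      _ ≤ 2 * (C1 * ((1 + κ + C) * ((1 + J) * q + e * (s + 1 + w)))) * (C * α) :=
          mul_le_mul_of_nonneg_right (by linarith) (by positivity)
      _ = _ := by ring
  have t2 : 2 * B * ap * E ≤ (2 * C * C1) * ((k + 1) * α ^ 2 * E) := by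
    calc 2 * B * ap * E ≤ 2 * B * (C * α) * E :=
          mul_le_mul_of_nonneg_right (mul_le_mul_of_nonneg_left hap (by positivity)) hE
      _ = _ := by rw [hB]; ring
  have t3 : T / 2 * Y ≤ (κ + C) * (T * (s + 1 + w)) := by
    calc T / 2 * Y ≤ T / 2 * ((κ + C) * (s + 1 + w)) :=
          mul_le_mul_of_nonneg_left (hY.trans hX) (by positivity)
      _ ≤ T * ((κ + C) * (s + 1 + w)) :=
          mul_le_mul_of_nonneg_right (by linarith) (by positivity)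
      _ = _ := by ring
  have hap2 : ap ^ 2 ≤ (C * α) ^ 2 := pow_le_pow_left₀ hap0 hap 2
  have t4 : 2 * (C * ee4) * ap ^ 2 ≤ 2 * C ^ 3 * Q * q := by
    calc 2 * (C * ee4) * ap ^ 2 ≤ 2 * (C * 1) * (C * α) ^ 2 :=
          mul_le_mul (mul_le_mul_of_nonneg_left (mul_le_mul_of_nonneg_left h41 hC0)
            (by norm_num)) hap2 (sq_nonneg _) (by linarith)
      _ = 2 * C ^ 3 * α ^ 2 := by ring
      _ ≤ 2 * C ^ 3 * (Q * q) := mul_le_mul_of_nonneg_left hα2 (by positivity)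
      _ = _ := by ring
  have hα1 : α ≤ (1 + Q) * q := by
    have e1 := le_one_add_sq α
    have e2 : (1 + Q) * q = q + Q * q := by ring
    rw [e2]; linarith
  have t5 : κ * k * (C * ee4) * ap ≤ κ * C ^ 2 * (1 + Q) * q := by
    calc κ * k * (C * ee4) * ap = (κ * C) * (k * ee4) * ap := by ring
      _ ≤ (κ * C) * 1 * (C * α) :=
          mul_le_mul (mul_le_mul_of_nonneg_left h4k (by positivity)) hap hap0 (by positivity)
      _ = κ * C ^ 2 * α := by ring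
      _ ≤ κ * C ^ 2 * ((1 + Q) * q) := mul_le_mul_of_nonneg_left hα1 (by positivity)
      _ = _ := by ring
  set c1 := 2 * C * C1 * (1 + κ + C) with hc1
  set c2 := κ + C with hc2
  set c3 := 2 * C ^ 3 * Q + κ * C ^ 2 * (1 + Q) with hc3
  set c4 := 2 * C * C1 with hc4
  set P1 := ((1 + J) * q + e * (s + 1 + w)) * α with hP1
  set P3 := T * (s + 1 + w) with hP3
  set P4 := (k + 1) * α ^ 2 * E with hP4
  have c1p : 0 ≤ c1 := by positivity
  have c2p : 0 ≤ c2 := by positivity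
  have c3p : 0 ≤ c3 := by positivity
  have c4p : 0 ≤ c4 := by positivity
  have P1p : 0 ≤ P1 := by positivity
  have P3p : 0 ≤ P3 := by positivity
  have P4p : 0 ≤ P4 := by positivity
  have t45 : 2 * (C * ee4) * ap ^ 2 + κ * k * (C * ee4) * ap ≤ c3 * q := by
    have e2 : c3 * q = 2 * C ^ 3 * Q * q + κ * C ^ 2 * (1 + Q) * q := by rw [hc3]; ring
    rw [e2]; exact add_le_add t4 t5
  have hgoal : (c1 + c2 + c3 + c4) * ((1 + J) * q + e * (s + 1 + w)) * α + (c1 + c2 + c3 + c4) * q +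
      (c1 + c2 + c3 + c4) * T * (s + 1 + w) + (c1 + c2 + c3 + c4) * (k + 1) * α ^ 2 * E =
      (c1 + c2 + c3 + c4) * P1 + (c1 + c2 + c3 + c4) * q + (c1 + c2 + c3 + c4) * P3 +
        (c1 + c2 + c3 + c4) * P4 := by
    rw [hP1, hP3, hP4]; ring
  rw [hgoal]
  have u1 : c1 * P1 ≤ (c1 + c2 + c3 + c4) * P1 := mul_le_mul_of_nonneg_right (by linarith) P1p
  have u2 : c3 * q ≤ (c1 + c2 + c3 + c4) * q := mul_le_mul_of_nonneg_right (by linarith) (by linarith)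
  have u3 : c2 * P3 ≤ (c1 + c2 + c3 + c4) * P3 := mul_le_mul_of_nonneg_right (by linarith) P3p
  have u4 : c4 * P4 ≤ (c1 + c2 + c3 + c4) * P4 := mul_le_mul_of_nonneg_right (by linarith) P4p
  linarith

/-- **Packet SQB.** -/
theorem SQB (_hLTM : LTM_stmt) (hYBD : YBD_stmt) (hNMA : NMA_stmt) (hSEC : SEC_stmt) :
    SQB_stmt := by
  intro κ C b
  by_cases hkC : 0 < κ ∧ 1 ≤ C
  swap
  · exact ⟨0, le_rfl, fun a p V Tl Si φ Φ k1 hc hs => absurd ⟨hs.kpos, hs.cone⟩ hkC⟩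
  obtain ⟨hκ, hC⟩ := hkC
  obtain ⟨C1, hC1, hN⟩ := hNMA C b
  have hC0 : 0 ≤ C := by linarith
  refine ⟨2 * C * C1 * (1 + κ + C) + (κ + C) + (2 * C ^ 3 * (4 * b + 1) ^ 2 +
    κ * C ^ 2 * (1 + (4 * b + 1) ^ 2)) + 2 * C * C1, by positivity, ?_⟩
  intro a p V Tl Si φ Φ k1 hc hs k s hk1 hk0 hks J N s0
  have hV := V_nonneg hc
  have h4 : (0 : ℝ) < 4 ^ k := by positivity
  -- nonnegativity of the averages
  have haa : 0 ≤ aa V b k := div_nonneg (Finset.sum_nonneg (fun z _ => hV z)) h4.le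
  have hbb : 0 ≤ bb V b k := div_nonneg (Finset.sum_nonneg (fun z _ => sq_nonneg _)) h4.le
  have hww : 0 ≤ ww V b s := Finset.sum_nonneg (fun z _ => div_nonneg (hV z) (sq_nonneg _))
  have hee : 0 ≤ ee Tl b J k := div_nonneg (Finset.sum_nonneg (fun z _ => hc.tl0 z J)) h4.le
  have hqq : 1 ≤ qq V b k s := by unfold qq; nlinarith [sq_nonneg (tt V b k s)]
  have hqb : bb V b k ≤ qq V b k s := by unfold qq; nlinarith [sq_nonneg (tt V b k s)]
  have hE : 0 ≤ Ex p (Bx b (s + 1)) N (one (Bx b (s + 1))) s0 :=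
    Ex_nonneg hc.p0 hc.p1 _ N (fun s => by unfold one; split_ifs <;> norm_num) s0
  have hY := hYBD a p V Tl Si φ Φ κ C b k1 hc hs k s hk1 hks N s0
  have hks' : (k : ℝ) ≤ s := by exact_mod_cast hks
  have hk1' : (1 : ℝ) ≤ k := by exact_mod_cast hk0
  -- the parameters of `SEC`
  have hap0 : 0 ≤ ∑ z ∈ Bx b k, |hk Φ k z| * V z :=
    Finset.sum_nonneg (fun z _ => mul_nonneg (abs_nonneg _) (hV z))
  have hap : ∑ z ∈ Bx b k, |hk Φ k z| * V z ≤ C * aa V b k := by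
    calc ∑ z ∈ Bx b k, |hk Φ k z| * V z ≤ ∑ z ∈ Bx b k, C / 4 ^ k * V z :=
          Finset.sum_le_sum (fun z _ => mul_le_mul_of_nonneg_right (hs.h1 k hk1 z) (hV z))
      _ ≤ ∑ z ∈ Bx b (k + 1), C / 4 ^ k * V z :=
          Finset.sum_le_sum_of_subset_of_nonneg (Bx_mono (Nat.le_succ k))
            (fun z _ _ => mul_nonneg (by positivity) (hV z))
      _ = C * aa V b k := by
          rw [← Finset.mul_sum]; unfold aa; ring
  have hX0 : 0 ≤ κ * ((s : ℝ) - k) + C + C * ww V b s := by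
    have : 0 ≤ κ * ((s : ℝ) - k) := mul_nonneg hκ.le (by linarith)
    positivity
  have hβ : ∀ s : St, |hk Φ k s.1 * dS a p s| ≤ C / 4 ^ k := by
    intro s
    rw [abs_mul]
    calc |hk Φ k s.1| * |dS a p s| ≤ C / 4 ^ k * 1 :=
          mul_le_mul (hs.h1 k hk1 s.1) (dS_abs hc s) (abs_nonneg _) (by positivity)
      _ = _ := mul_one _
  have key := hSEC p hc.p0 hc.p1 (Bx b (s + 1)) (fun s => cL a p Φ b k s.2)
    (fun s => hk Φ k s.1 * dS a p s) (fun s => La a (Φ k) s.1)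
    (fun s => ∑ z ∈ Bx b k, |hk Φ k z| * (V z - Vm a p z (s.2 z))) (ci Φ Si b k) (κ * k)
    (C1 * ((1 + J) * qq V b k s + ee Tl b J k * (κ * (s - k) + C + C * ww V b s)))
    (C1 * (k + 1) * aa V b k) (∑ z ∈ Bx b k, |hk Φ k z| * V z) (C / 4 ^ k) (C / 4 ^ k)
    (mul_pos hκ (by linarith)) (mul_nonneg hC1 (add_nonneg (mul_nonneg (by positivity)
      (by linarith)) (mul_nonneg hee hX0))) (mul_nonneg (mul_nonneg hC1 (by positivity)) haa)
    (div_nonneg hC0 h4.le) (div_nonneg hC0 h4.le)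
    (fun s _ e => by
      rw [nxt_snd]; exact cL_inc a p Φ b k (hs.hS k hk1) s)
    (fun s _ e => by
      rw [nxt_snd]
      have h1 := sum_upd (Bx b k) (fun z => |hk Φ k z|) (fun z j => V z - Vm a p z j) s
        (fun h => by rw [hs.hS k hk1 s.1 h, abs_zero]) (-|dS a p s|)
        (by rw [Vm_succ]; unfold dS; ring)
      rw [h1, abs_mul]; ring)
    (fun s => Finset.sum_nonneg (fun z _ => mul_nonneg (abs_nonneg _)
      (sub_nonneg.2 (hc.tv z _))))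
    (fun s => Finset.sum_le_sum (fun z _ => mul_le_mul_of_nonneg_left
      (by linarith [Vm_nonneg a p z (s.2 z)]) (abs_nonneg _)))
    hβ (fun s => hs.mu0 k hk1 s.1) (fun s => hs.mu1 k hk1 s.1)
    (fun M s1 => by
      have h1 := hN a p V Tl Si φ Φ κ k1 hc hs k s hk1 hks J M s1
      have h2 : (fun s : St => La a (Φ k) s.1 * (cL a p Φ b k (inc s) - ci Φ Si b k)) =
          fun s : St => La a (Φ k) s.1 * (cL a p Φ b k s.2 + hk Φ k s.1 * dS a p s -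
            ci Φ Si b k) := by
        funext s
        rw [cL_inc a p Φ b k (hs.hS k hk1) s]
      rw [h2] at h1
      exact h1) N s0
  have hk4 : (k : ℝ) * (1 / 4 ^ k) ≤ 1 := by
    rw [mul_one_div, div_le_one h4]
    have : k < 4 ^ k := Nat.lt_pow_self (by norm_num)
    exact_mod_cast this.le
  refine final_arith (κ := κ) (C := C) (C1 := C1) (Q := (4 * (b : ℝ) + 1) ^ 2)
    (q := qq V b k s) (e := ee Tl b J k) (w := ww V b s) (α := aa V b k)
    (E := Ex p (Bx b (s + 1)) N (one (Bx b (s + 1))) s0)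
    (Y := Rw p (Bx b (s + 1)) N (fun s => La a (Φ k) s.1) s0)
    (T := (cL a p Φ b k s0.2 - ci Φ Si b k) ^ 2) (J := (J : ℝ)) (k := (k : ℝ)) (s := (s : ℝ))
    (A := C1 * ((1 + J) * qq V b k s + ee Tl b J k * (κ * (s - k) + C + C * ww V b s)))
    (B := C1 * (k + 1) * aa V b k) (ap := ∑ z ∈ Bx b k, |hk Φ k z| * V z) (ee4 := 1 / 4 ^ k)
    hκ hC hC1 (by positivity) hqq hee hww haa hE (sq_nonneg _) (by positivity) (by positivity)
    hks' hY rfl rfl hap0 hap (by positivity) ?_ hk4 ?_ ?_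
  · rw [div_le_one h4]
    exact one_le_pow₀ (by norm_num)
  · exact (aa_sq_le V b k).trans (mul_le_mul_of_nonneg_left hqb (by positivity))
  · have h9 : C * (1 / 4 ^ k) = C / 4 ^ k := by ring
    rw [h9]
    exact key

end Pool.Agent.Helper13.EXC
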